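import Pool.Agent.H12.Zono4

set_option autoImplicit false

namespace Pool.Agent.Results.MP_95f808_co.TreeConn

open Pool.Agent.H12.Zono

theorem result :
    ∀ k : ℕ, ∀ n m : ℕ, ∀ ends : Fin m → Fin n × Fin n,
      (∀ c : Fin n → Fin n, (k + 1) * ((Finset.univ.image c).card - 1) ≤
        (Finset.univ.filter (fun e : Fin m => c (ends e).1 ≠ c (ends e).2)).card) →
      ∃ f : Fin m → ℤ,
        (∀ e, (k : ℤ) ≤ |f e| ∧ |f e| ≤ (k : ℤ) + 2) ∧
        ∀ v : Fin n,
          ∑ e ∈ Finset.univ.filter (fun e : Fin m => (ends e).1 = v), f e =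
          ∑ e ∈ Finset.univ.filter (fun e : Fin m => (ends e).2 = v), f e := by
  intro k n m ends h
  refine int_flow (fun e => (ends e).1) (fun e => (ends e).2) k (fun c => ?_)
  have h1 := h c
  rcases Nat.eq_zero_or_pos (Finset.univ.image c).card with h0 | h0
  · rw [h0]
    have : (0 : ℝ) ≤ (Finset.univ.filter (fun e : Fin m => c (ends e).1 ≠ c (ends e).2)).card := by
      positivity
    have hk : (0 : ℝ) ≤ k := by positivity
    push_cast; nlinarith
  · have h2 : (((k + 1) * ((Finset.univ.image c).card - 1) : ℕ) : ℝ) ≤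
        (Finset.univ.filter (fun e : Fin m => c (ends e).1 ≠ c (ends e).2)).card := by
      exact_mod_cast h1
    rw [Nat.cast_mul, Nat.cast_sub h0] at h2
    push_cast at h2
    exact h2

end Pool.Agent.Results.MP_95f808_co.TreeConn
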